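import Pool.Agent.Lib_helper22.SFR.Basic
import Pool.Agent.Lib_helper22.CN.CM

/-!
Generic dual bases of the Frobenius.
-/

namespace Pool.Agent.SFR

section

variable {R : Type*} [CommRing R]

/-- A dual basis of the Frobenius after inverting `c`. -/
def FrobDual (p : ℕ) (c : R) : Prop :=
  ∃ (n : ℕ) (b : Fin n → R) (l : Fin n → (R →+ R)), (∀ j, IsCartier p (l j)) ∧
    ∀ z : R, c * z = ∑ j, (l j z) ^ p * b j

/-- A compatible prime not containing `c` is a minimal prime at which `R` is reduced. -/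
theorem FrobDual.kill [IsNoetherianRing R] {p : ℕ} (hp : 2 ≤ p) {c : R} (h : FrobDual p c)
    {P : Ideal R} [P.IsPrime] (hcP : c ∉ P) (hP : Compat p P) :
    ∀ y ∈ P, ∃ s, s ∉ P ∧ s * y = 0 := by
  obtain ⟨n, b, l, hl, hz⟩ := h
  have h1 : ∀ y ∈ P, c * y ∈ P * P := by
    intro y hy
    rw [hz]
    refine Ideal.sum_mem _ fun j _ => Ideal.mul_mem_right _ _ ?_
    have h2 : l j y ∈ P := hP 1 (l j) (by simpa using hl j) y hy
    have h3 : (l j y) ^ p ∈ P ^ 2 := Ideal.pow_le_pow_right hp (Ideal.pow_mem_pow h2 p)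
    rwa [pow_two] at h3
  let Rp := Localization.AtPrime P
  have hmax : IsLocalRing.maximalIdeal Rp = P.map (algebraMap R Rp) :=
    (Localization.AtPrime.map_eq_maximalIdeal).symm
  have hnoeth : IsNoetherianRing Rp := IsLocalization.isNoetherianRing P.primeCompl Rp inferInstance
  have hcu : IsUnit (algebraMap R Rp c) := IsLocalization.map_units Rp (⟨c, hcP⟩ : P.primeCompl)
  have h2 : IsLocalRing.maximalIdeal Rp ≤
      IsLocalRing.maximalIdeal Rp • IsLocalRing.maximalIdeal Rp := by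
    rw [smul_eq_mul, hmax, ← Ideal.map_mul, Ideal.map_le_iff_le_comap]
    intro y hy
    rw [Ideal.mem_comap]
    have h3 := Ideal.mem_map_of_mem (algebraMap R Rp) (h1 y hy)
    rw [map_mul] at h3
    exact (Ideal.unit_mul_mem_iff_mem _ hcu).mp h3
  have h3 : IsLocalRing.maximalIdeal Rp = ⊥ :=
    Submodule.eq_bot_of_le_smul_of_le_jacobson_bot _ _ (IsNoetherian.noetherian _) h2
      (IsLocalRing.maximalIdeal_le_jacobson _)
  intro y hy
  have h4 : algebraMap R Rp y ∈ IsLocalRing.maximalIdeal Rp := by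
    rw [hmax]
    exact Ideal.mem_map_of_mem _ hy
  rw [h3, Submodule.mem_bot] at h4
  obtain ⟨s, hs⟩ := (IsLocalization.map_eq_zero_iff P.primeCompl Rp y).mp h4
  exact ⟨s, s.2, hs⟩

/-- Dichotomy: a Noetherian local F-pure ring with a Frobenius-dual element `c` which lies in no
proper compatible ideal is a strongly F-regular domain. -/
theorem isSFR_of_frobDual [IsNoetherianRing R] [IsLocalRing R] {p : ℕ} (hp : 2 ≤ p)
    (hF : IsFPureRing p R) {c : R} (h : FrobDual p c)
    (hc : ∀ I : Ideal R, Compat p I → I ≠ ⊤ → c ∉ I) : IsDomain R ∧ IsSFR p R := by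
  classical
  -- the largest proper compatible ideal
  let Q : Ideal R := sSup {I | Compat p I ∧ I ≠ ⊤}
  have hQle : Q ≤ IsLocalRing.maximalIdeal R := sSup_le fun I hI => IsLocalRing.le_maximalIdeal hI.2
  have hQtop : Q ≠ ⊤ := by
    intro h
    rw [h] at hQle
    exact (IsLocalRing.maximalIdeal.isMaximal R).ne_top (top_le_iff.mp hQle)
  have hmaxQ : ∀ I : Ideal R, Compat p I → I ≠ ⊤ → I ≤ Q := fun I hI hI' => le_sSup ⟨hI, hI'⟩
  have hsup : ∀ I J : Ideal R, Compat p I → Compat p J → Compat p (I ⊔ J) := by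
    intro I J hI hJ e φ hφ x hx
    obtain ⟨a, ha, b, hb, rfl⟩ := Submodule.mem_sup.mp hx
    rw [map_add]
    exact Submodule.add_mem_sup (hI e φ hφ a ha) (hJ e φ hφ b hb)
  have hdir : DirectedOn (· ≤ ·) {I : Ideal R | Compat p I ∧ I ≠ ⊤} := by
    intro I hI J hJ
    refine ⟨I ⊔ J, ⟨hsup I J hI.1 hJ.1, ?_⟩, le_sup_left, le_sup_right⟩
    intro h
    have := sup_le (IsLocalRing.le_maximalIdeal hI.2) (IsLocalRing.le_maximalIdeal hJ.2)
    rw [h] at this
    exact (IsLocalRing.maximalIdeal.isMaximal R).ne_top (top_le_iff.mp this)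
  have hbot : Compat p (⊥ : Ideal R) := by
    intro e φ _ x hx
    rw [Submodule.mem_bot] at hx ⊢
    rw [hx, map_zero]
  have hQc : Compat p Q := by
    intro e φ hφ x hx
    have hne : {I : Ideal R | Compat p I ∧ I ≠ ⊤}.Nonempty := ⟨⊥, hbot, bot_ne_top⟩
    obtain ⟨I, hI, hxI⟩ := (Submodule.mem_sSup_of_directed hne hdir).mp hx
    exact hmaxQ I hI.1 hI.2 (hI.1 e φ hφ x hxI)
  have hp1 : 1 < p := by omega
  have hQrad : Q.IsRadical := hQc.isRadical hp1 hF
  -- `Q` is prime
  have hQprime : Q.IsPrime := by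
    obtain ⟨P, hP⟩ : (Q.minimalPrimes).Nonempty :=
      Set.nonempty_coe_sort.mp (Ideal.nonempty_minimalPrimes hQtop)
    have hPp : P.IsPrime := hP.1.1
    have h1 := hQc.minimalPrimes (by omega) hQrad hP
    have : P = Q := le_antisymm (hmaxQ P h1 hPp.ne_top) hP.1.2
    rwa [← this]
  have hkill := h.kill hp (hc Q hQc hQtop) hQc
  -- `Q` is contained in each prime it contains
  have hmin : ∀ P : Ideal R, P.IsPrime → P ≤ Q → Q ≤ P := by
    intro P hP hPQ y hy
    obtain ⟨s, hs, hsy⟩ := hkill y hy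
    have : s * y ∈ P := by rw [hsy]; exact Ideal.zero_mem _
    exact (hP.mem_or_mem this).resolve_left fun h => hs (hPQ h)
  have hbotrad : (⊥ : Ideal R).IsRadical := hbot.isRadical hp1 hF
  have hQbot : Q = ⊥ := by
    rw [← hbotrad.radical, ← Ideal.sInf_minimalPrimes]
    refine le_antisymm (le_sInf fun P hP => ?_) ?_
    · have hPp : P.IsPrime := hP.1.1
      exact hmin P hPp (hmaxQ P (hbot.minimalPrimes (by omega) hbotrad hP) hPp.ne_top)
    · obtain ⟨P, hP, hPQ⟩ := Ideal.exists_minimalPrimes_le (I := (⊥ : Ideal R)) (J := Q) bot_le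
      exact (sInf_le hP).trans hPQ
  refine ⟨?_, isSFR_of_compat p fun I hI hI' => ?_⟩
  · rw [hQbot] at hQprime
    exact IsDomain.of_bot_isPrime R
  · rw [eq_bot_iff, ← hQbot]
    exact hmaxQ I hI hI'

end

end Pool.Agent.SFR
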