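import Mathlib

/-!
Cartier (i.e. `p^{-e}`-linear) maps, compatible ideals, strong F-regularity.
-/

namespace Pool.Agent.SFR

/-- `φ` is `q`-Cartier: additive and `φ (r^q s) = r φ(s)`. -/
def IsCartier {R : Type*} [CommRing R] (q : ℕ) (φ : R →+ R) : Prop :=
  ∀ r s : R, φ (r ^ q * s) = r * φ s

section Basic

variable {R : Type*} [CommRing R]

theorem isCartier_id : IsCartier 1 (AddMonoidHom.id R) := by
  intro r s
  simp

theorem IsCartier.comp {q q' : ℕ} {φ ψ : R →+ R} (hφ : IsCartier q φ) (hψ : IsCartier q' ψ) :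
    IsCartier (q * q') (φ.comp ψ) := by
  intro r s
  rw [AddMonoidHom.comp_apply, AddMonoidHom.comp_apply, pow_mul, hψ, hφ]

/-- precomposition with multiplication by `a` -/
def preMul (φ : R →+ R) (a : R) : R →+ R := φ.comp (AddMonoidHom.mulLeft a)

theorem preMul_apply (φ : R →+ R) (a s : R) : preMul φ a s = φ (a * s) := rfl

theorem IsCartier.preMul {q : ℕ} {φ : R →+ R} (hφ : IsCartier q φ) (a : R) :
    IsCartier q (preMul φ a) := by
  intro r s
  rw [preMul_apply, preMul_apply, ← hφ]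
  congr 1
  ring

/-- postcomposition with multiplication by `a` -/
def postMul (φ : R →+ R) (a : R) : R →+ R := (AddMonoidHom.mulLeft a).comp φ

theorem postMul_apply (φ : R →+ R) (a s : R) : postMul φ a s = a * φ s := rfl

theorem IsCartier.postMul {q : ℕ} {φ : R →+ R} (hφ : IsCartier q φ) (a : R) :
    IsCartier q (postMul φ a) := by
  intro r s
  rw [postMul_apply, postMul_apply, hφ]
  ring

/-- `I` is compatible with all Cartier maps of level `p^e`. -/
def Compat (p : ℕ) (I : Ideal R) : Prop :=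
  ∀ (e : ℕ) (φ : R →+ R), IsCartier (p ^ e) φ → ∀ x ∈ I, φ x ∈ I

/-- the smallest compatible ideal attached to `c` (for an F-pure ring) -/
def cIdeal (p : ℕ) (c : R) : Ideal R :=
  Ideal.span {y | ∃ (e : ℕ) (φ : R →+ R), IsCartier (p ^ e) φ ∧ y = φ c}

theorem compat_cIdeal (p : ℕ) (c : R) : Compat p (cIdeal p c) := by
  intro e φ hφ x hx
  refine Submodule.span_induction (p := fun x _ => ∀ r : R, φ (r * x) ∈ cIdeal p c)
    ?_ ?_ ?_ ?_ hx 1 |> fun h => by simpa using h
  · rintro _ ⟨e', ψ, hψ, rfl⟩ r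
    refine Ideal.subset_span ⟨e + e', φ.comp (preMul ψ (r ^ p ^ e')), ?_, ?_⟩
    · rw [pow_add]
      exact hφ.comp (hψ.preMul _)
    · rw [AddMonoidHom.comp_apply, preMul_apply, hψ]
  · intro r
    rw [mul_zero, map_zero]
    exact Ideal.zero_mem _
  · intro a b _ _ ha hb r
    rw [mul_add, map_add]
    exact Ideal.add_mem _ (ha r) (hb r)
  · intro a b _ hb r
    rw [smul_eq_mul, ← mul_assoc]
    exact hb (r * a)

theorem self_mem_cIdeal (p : ℕ) (c : R) : c ∈ cIdeal p c :=
  Ideal.subset_span ⟨0, AddMonoidHom.id R, by simpa using isCartier_id, rfl⟩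

/-- strong F-regularity -/
def IsSFR (p : ℕ) (R : Type*) [CommRing R] : Prop :=
  ∀ c : R, c ≠ 0 → ∃ (e : ℕ) (φ : R →+ R), IsCartier (p ^ e) φ ∧ φ c = 1

theorem isSFR_of_compat [IsLocalRing R] (p : ℕ)
    (h : ∀ I : Ideal R, Compat p I → I ≠ ⊤ → I = ⊥) : IsSFR p R := by
  intro c hc
  have h1 : cIdeal p c = ⊤ := by
    by_contra hne
    have := h _ (compat_cIdeal p c) hne
    have h2 := self_mem_cIdeal p c
    rw [this] at h2
    exact hc ((Submodule.mem_bot R).mp h2)
  by_contra hcon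
  push Not at hcon
  have h2 : cIdeal p c ≤ IsLocalRing.maximalIdeal R := by
    refine Ideal.span_le.mpr ?_
    rintro _ ⟨e, φ, hφ, rfl⟩
    change φ c ∈ IsLocalRing.maximalIdeal R
    rw [IsLocalRing.mem_maximalIdeal, mem_nonunits_iff]
    rintro ⟨u, hu⟩
    refine hcon e (postMul φ ((u⁻¹ : Rˣ) : R)) (hφ.postMul _) ?_
    rw [postMul_apply, ← hu, Units.inv_mul]
  rw [h1] at h2
  exact (IsLocalRing.maximalIdeal.isMaximal R).ne_top (top_le_iff.mp h2)

theorem IsSFR.eq_bot {p : ℕ} (h : IsSFR p R) {I : Ideal R} (hI : Compat p I) (hne : I ≠ ⊤) :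
    I = ⊥ := by
  rw [eq_bot_iff]
  intro c hc
  rw [Submodule.mem_bot]
  by_contra hc0
  obtain ⟨e, φ, hφ, h1⟩ := h c hc0
  exact hne ((Ideal.eq_top_iff_one I).mpr (h1 ▸ hI e φ hφ c hc))

/-- F-purity in the form we need: some Cartier map of positive level takes `1` to `1`. -/
def IsFPureRing (p : ℕ) (R : Type*) [CommRing R] : Prop :=
  ∃ (e : ℕ) (φ : R →+ R), 0 < e ∧ IsCartier (p ^ e) φ ∧ φ 1 = 1

theorem isFPureRing_of_apply {p : ℕ} {e : ℕ} (he : 0 < e) {φ : R →+ R}
    (hφ : IsCartier (p ^ e) φ) {f : R} (hf : φ f = 1) : IsFPureRing p R :=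
  ⟨e, preMul φ f, he, hφ.preMul f, by rw [preMul_apply, mul_one, hf]⟩

/-- Compatible ideals of an F-pure ring are radical. -/
theorem Compat.isRadical {p : ℕ} (hp : 1 < p) (hF : IsFPureRing p R) {I : Ideal R}
    (hI : Compat p I) : I.IsRadical := by
  obtain ⟨e, φ, he, hφ, h1⟩ := hF
  have hstep : ∀ y : R, y ^ p ^ e ∈ I → y ∈ I := by
    intro y hy
    have h2 := hI e φ hφ _ hy
    have h3 := hφ y 1
    rw [mul_one, h1, mul_one] at h3
    rwa [h3] at h2
  have hstep2 : ∀ (n : ℕ) (y : R), y ^ (p ^ e) ^ n ∈ I → y ∈ I := by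
    intro n
    induction n with
    | zero => intro y hy; simpa using hy
    | succ n ih =>
      intro y hy
      rw [pow_succ, pow_mul] at hy
      exact ih y (hstep _ hy)
  rintro y ⟨n, hn⟩
  have hq : 1 < p ^ e := Nat.one_lt_pow he.ne' hp
  refine hstep2 n y ?_
  have hle : n ≤ (p ^ e) ^ n := (Nat.lt_pow_self hq).le
  obtain ⟨k, hk⟩ := Nat.exists_eq_add_of_le hle
  rw [hk, pow_add]
  exact Ideal.mul_mem_right _ _ hn

theorem Compat.colon {p : ℕ} {I : Ideal R} (hI : Compat p I) (y : R) {Q : Ideal R}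
    (hQ : ∀ z, z ∈ Q ↔ y * z ∈ I) (hp : 0 < p) : Compat p Q := by
  intro e φ hφ z hz
  rw [hQ] at hz ⊢
  rw [← hφ]
  refine hI e φ hφ _ ?_
  have : y ^ p ^ e * z = y ^ (p ^ e - 1) * (y * z) := by
    have h1 : p ^ e - 1 + 1 = p ^ e := Nat.sub_add_cancel (Nat.one_le_pow _ _ hp)
    calc y ^ p ^ e * z = y ^ (p ^ e - 1 + 1) * z := by rw [h1]
      _ = y ^ (p ^ e - 1) * (y * z) := by ring
  rw [this]
  exact Ideal.mul_mem_left _ _ hz

/-- Minimal primes of a radical compatible ideal of a Noetherian ring are compatible. -/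
theorem Compat.minimalPrimes [IsNoetherianRing R] {p : ℕ} (hp : 0 < p) {I : Ideal R}
    (hI : Compat p I) (hrad : I.IsRadical) {Q : Ideal R} (hQ : Q ∈ I.minimalPrimes) :
    Compat p Q := by
  classical
  have hfin : (I.minimalPrimes).Finite := Ideal.finite_minimalPrimes_of_isNoetherianRing R I
  have hQp : Q.IsPrime := hQ.1.1
  -- an element in all other minimal primes, not in `Q`
  obtain ⟨y, hy, hyQ⟩ : ∃ y, (∀ P ∈ I.minimalPrimes, P ≠ Q → y ∈ P) ∧ y ∉ Q := by
    by_contra hcon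
    push Not at hcon
    let s : Finset (Ideal R) := hfin.toFinset.erase Q
    have h1 : s.inf id ≤ Q := by
      intro y hy
      refine hcon y fun P hP hne => ?_
      have : s.inf id ≤ P := Finset.inf_le (f := id) (by
        simp only [s, Finset.mem_erase, Set.Finite.mem_toFinset]
        exact ⟨hne, hP⟩)
      exact this hy
    obtain ⟨P, hP, hPQ⟩ := (Ideal.IsPrime.inf_le' hQp).mp h1
    simp only [s, Finset.mem_erase, Set.Finite.mem_toFinset] at hP
    exact hP.1 (le_antisymm hPQ (hQ.2 hP.2.1 hPQ))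
  refine hI.colon y (Q := Q) (fun z => ?_) hp
  constructor
  · intro hz
    rw [← hrad.radical, ← Ideal.sInf_minimalPrimes, Ideal.mem_sInf]
    intro P hP
    by_cases hPQ : P = Q
    · rw [hPQ]; exact Ideal.mul_mem_left _ _ hz
    · exact Ideal.mul_mem_right _ _ (hy P hP hPQ)
  · intro hz
    exact (hQp.mem_or_mem (hQ.1.2 hz)).resolve_left hyQ

end Basic

end Pool.Agent.SFR
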