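import Pool.Agent.Lib_helper22.SFR.Generic
import Pool.Agent.Lib_helper22.CN.CM3

/-!
Dimension bound: `m^(δ q + C) ≤ m^[q]`.
-/

namespace Pool.Agent.SFR

open IsLocalRing

/-- the bracket power -/
def bracket {R : Type*} [CommRing R] (I : Ideal R) (q : ℕ) : Ideal R :=
  Ideal.span ((fun x => x ^ q) '' (I : Set R))

theorem pow_span_le {R : Type*} [CommRing R] {ι : Type*} [Fintype ι] (y : ι → R) (n : ℕ) :
    Ideal.span (Set.range y) ^ n ≤
      Ideal.span ((fun α : ι →₀ ℕ => ∏ i, y i ^ α i) '' {α | α.degree = n}) := by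
  classical
  induction n with
  | zero =>
    have h : (1 : R) ∈ Ideal.span ((fun α : ι →₀ ℕ => ∏ i, y i ^ α i) '' {α | α.degree = 0}) :=
      Ideal.subset_span ⟨0, by simp, by simp⟩
    rw [(Ideal.eq_top_iff_one _).mpr h]
    exact le_top
  | succ n ih =>
    rw [pow_succ]
    refine (Ideal.mul_mono_left ih).trans ?_
    rw [Ideal.span_mul_span', Ideal.span_le]
    rintro _ ⟨_, ⟨α, hα, rfl⟩, _, ⟨i, rfl⟩, rfl⟩
    refine Ideal.subset_span ⟨α + Finsupp.single i 1, ?_, ?_⟩
    · change (α + Finsupp.single i 1).degree = n + 1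
      rw [map_add, Finsupp.degree_single, show α.degree = n from hα]
    · change ∏ j, y j ^ (α + Finsupp.single i 1 : ι →₀ ℕ) j = (∏ j, y j ^ α j) * y i
      simp_rw [Finsupp.add_apply, pow_add, Finset.prod_mul_distrib]
      congr 1
      rw [Finset.prod_eq_single i]
      · simp
      · intro j _ hj
        rw [Finsupp.single_apply, if_neg (Ne.symm hj), pow_zero]
      · intro h
        exact absurd (Finset.mem_univ i) h

/-- pigeonhole -/
theorem pow_le_span_pow {R : Type*} [CommRing R] {δ : ℕ} (y : Fin δ → R) {q : ℕ} (hq : 0 < q) :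
    Ideal.span (Set.range y) ^ (δ * (q - 1) + 1) ≤ Ideal.span (Set.range fun i => y i ^ q) := by
  classical
  refine (pow_span_le y _).trans ?_
  rw [Ideal.span_le]
  rintro _ ⟨α, hα, rfl⟩
  obtain ⟨i, hi⟩ : ∃ i, q ≤ α i := by
    by_contra hcon
    push Not at hcon
    have h1 : α.degree ≤ δ * (q - 1) := by
      rw [Finsupp.degree_eq_sum]
      calc ∑ i, α i ≤ ∑ _i : Fin δ, (q - 1) := Finset.sum_le_sum fun i _ => by
            have := hcon i; omega
        _ = δ * (q - 1) := by simp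
    have h2 : α.degree = δ * (q - 1) + 1 := hα
    omega
  change ∏ j, y j ^ α j ∈ Ideal.span (Set.range fun i => y i ^ q)
  rw [← Finset.mul_prod_erase _ _ (Finset.mem_univ i)]
  refine Ideal.mul_mem_right _ _ ?_
  obtain ⟨t, ht⟩ := Nat.exists_eq_add_of_le hi
  rw [ht, pow_add]
  exact Ideal.mul_mem_right _ _ (Ideal.subset_span ⟨i, rfl⟩)

theorem bracket_of_red {R : Type*} [CommRing R] {m : Ideal R} {δ : ℕ} {x : Fin δ → R}
    (hx : CN.IsRed m x) : ∃ C : ℕ, ∀ q : ℕ, 0 < q →
      m ^ (δ * q + C) ≤ Ideal.span (Set.range fun i => x i ^ q) := by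
  obtain ⟨hxm, n0, hn0⟩ := hx
  refine ⟨n0 + 1, fun q hq => ?_⟩
  have h1 : m ^ (δ * q + (n0 + 1)) ≤ m ^ (n0 + (δ * (q - 1) + 1)) := by
    refine Ideal.pow_le_pow_right ?_
    have : δ * (q - 1) ≤ δ * q := Nat.mul_le_mul_left _ (Nat.sub_le _ _)
    omega
  refine h1.trans ((CN.pow_le_of_red m _ n0 hn0 _).trans ?_)
  exact Ideal.mul_le_left.trans (pow_le_span_pow x hq)

theorem dim_bound_complete (S : Type*) [CommRing S] [IsLocalRing S] [IsNoetherianRing S]
    [IsAdicComplete (maximalIdeal S) S] (p : ℕ) [Fact p.Prime] [CharP S p]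
    [Infinite (ResidueField S)] {δ : ℕ} (hδ : ringKrullDim S = δ) :
    ∃ C : ℕ, ∀ q : ℕ, 0 < q → maximalIdeal S ^ (δ * q + C) ≤ bracket (maximalIdeal S) q := by
  obtain ⟨s, hs⟩ := CN.exists_coefficientField S p
  obtain ⟨x, hx⟩ := CN.exists_red s (fun r => ⟨residue S r, by
      rw [← residue_eq_zero_iff, map_sub, hs, sub_self]⟩) hδ
  obtain ⟨C, hC⟩ := bracket_of_red hx
  refine ⟨C, fun q hq => (hC q hq).trans ?_⟩
  rw [Ideal.span_le]
  rintro _ ⟨i, rfl⟩
  exact Ideal.subset_span ⟨x i, hx.1 i, rfl⟩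

theorem bracket_map_le {R S : Type*} [CommRing R] [CommRing S] (f : R →+* S) (p : ℕ)
    [Fact p.Prime] [CharP S p] (e : ℕ) (I : Ideal R) :
    bracket (I.map f) (p ^ e) ≤ (bracket I (p ^ e)).map f := by
  rw [bracket, Ideal.span_le]
  rintro _ ⟨x, hx, rfl⟩
  change x ^ p ^ e ∈ _
  have h := Ideal.mem_map_of_mem (iterateFrobenius S p e) (show x ∈ I.map f from hx)
  rw [Ideal.map_map] at h
  have h2 : I.map ((iterateFrobenius S p e).comp f) ≤ (bracket I (p ^ e)).map f := by
    rw [Ideal.map_le_iff_le_comap]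
    intro y hy
    rw [Ideal.mem_comap]
    change (f y) ^ p ^ e ∈ _
    rw [← map_pow]
    exact Ideal.mem_map_of_mem f (Ideal.subset_span ⟨y, hy, rfl⟩)
  exact h2 h

/-- DIM: for a Noetherian local ring of characteristic `p` and dimension `δ` with infinite
residue field. -/
theorem dim_bound (S : Type*) [CommRing S] [IsLocalRing S] [IsNoetherianRing S]
    (p : ℕ) [Fact p.Prime] [CharP S p] [Infinite (ResidueField S)] {δ : ℕ}
    (hδ : ringKrullDim S = δ) :
    ∃ C : ℕ, ∀ e : ℕ, maximalIdeal S ^ (δ * p ^ e + C) ≤ bracket (maximalIdeal S) (p ^ e) := by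
  have hnoeth := CN.isNoetherianRing_adicCompletion S p
  have hchar := CN.charP_adicCompletion S p
  have hinf : Infinite (ResidueField (AdicCompletion (maximalIdeal S) S)) :=
    Infinite.of_injective _ (AdicCompletion.residueField_map_bijective S).1
  obtain ⟨C, hC⟩ := dim_bound_complete (AdicCompletion (maximalIdeal S) S) p (δ := δ)
    (by rw [CN.ringKrullDim_adicCompletion, hδ])
  refine ⟨C, fun e => ?_⟩
  have h1 := hC (p ^ e) (pow_pos (Fact.out : p.Prime).pos e)
  rw [AdicCompletion.maximalIdeal_eq_map, ← Ideal.map_pow] at h1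
  have h2 := h1.trans (bracket_map_le (algebraMap S (AdicCompletion (maximalIdeal S) S)) p e _)
  rw [Ideal.map_le_iff_le_comap] at h2
  have : Module.FaithfullyFlat S (AdicCompletion (maximalIdeal S) S) :=
    Module.FaithfullyFlat.of_flat_of_isLocalHom
  rwa [Ideal.comap_map_eq_self_of_faithfullyFlat] at h2

end Pool.Agent.SFR
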