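import Pool.Agent.Lib_helper22.SFR.Dual

/-!
Generic dual bases of the Frobenius of an F-finite domain, and reflexivity for normal domains.
-/

namespace Pool.Agent.SFR

/-- the target of the Frobenius as an algebra over the source -/
def FrobCopy (R : Type*) (_p : ℕ) : Type _ := R

instance (R : Type*) [CommRing R] (p : ℕ) : CommRing (FrobCopy R p) :=
  inferInstanceAs (CommRing R)

noncomputable instance (R : Type*) [CommRing R] (p : ℕ) [ExpChar R p] :
    Algebra R (FrobCopy R p) := (frobenius R p).toAlgebra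

theorem frobCopy_smul {R : Type*} [CommRing R] (p : ℕ) [ExpChar R p] (r : R)
    (s : FrobCopy R p) : r • s = (show FrobCopy R p from (r ^ p * (show R from s) : R)) := rfl

/-- a linear map from the Frobenius copy is a Cartier map -/
noncomputable def cartierOfLinear {R : Type*} [CommRing R] (p : ℕ) [ExpChar R p]
    (l : FrobCopy R p →ₗ[R] R) : R →+ R := l.toAddMonoidHom

theorem isCartier_cartierOfLinear {R : Type*} [CommRing R] (p : ℕ) [ExpChar R p]
    (l : FrobCopy R p →ₗ[R] R) : IsCartier p (cartierOfLinear p l) := by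
  intro r s
  exact l.map_smul r s

theorem exists_frobDual (R : Type*) [CommRing R] [IsDomain R] (p : ℕ)
    [ExpChar R p] (hfin : (frobenius R p).Finite) : ∃ c : R, c ≠ 0 ∧ FrobDual p c := by
  classical
  have : Module.Finite R (FrobCopy R p) := hfin
  obtain ⟨h, β, c, hc, hβ, hcβ⟩ := CN.exists_free_submodule (A := R) (M := FrobCopy R p)
  let e := LinearEquiv.ofInjective β hβ
  let m : FrobCopy R p →ₗ[R] LinearMap.range β :=
    (LinearMap.lsmul R (FrobCopy R p) c).codRestrict _ hcβ
  let L : FrobCopy R p →ₗ[R] (Fin h → R) := e.symm.toLinearMap.comp m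
  refine ⟨c ^ p, pow_ne_zero _ hc, h, fun j => β (Pi.single j 1),
    fun j => cartierOfLinear p ((LinearMap.proj j).comp L),
    fun j => isCartier_cartierOfLinear p _, ?_⟩
  intro z
  have h1 : β (L z) = c • (show FrobCopy R p from z) := by
    change β (e.symm (m z)) = _
    have h2 := congrArg Subtype.val (e.apply_symm_apply (m z))
    exact h2
  have h3 : L z = ∑ j, (L z j) • (Pi.single j (1 : R) : Fin h → R) := by
    ext i
    simp [Finset.sum_apply, Pi.single_apply]
  rw [h3, map_sum] at h1
  simp_rw [map_smul] at h1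
  exact h1.symm

/-- Almost integral elements of the fraction field of a Noetherian normal domain. -/
theorem dvd_of_almost {R : Type*} [CommRing R] [IsDomain R] [IsNoetherianRing R]
    [IsIntegrallyClosed R] {c a y : R} (hc : c ≠ 0) (ha : a ≠ 0)
    (h : ∀ n : ℕ, a ^ n ∣ c * y ^ n) : a ∣ y := by
  let K := FractionRing R
  have hcK : algebraMap R K c ≠ 0 := by
    simpa using hc
  have haK : algebraMap R K a ≠ 0 := by
    simpa using ha
  let w : K := algebraMap R K y / algebraMap R K a
  have hint : IsIntegral R w := by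
    refine IsIntegral.of_mem_of_fg (Algebra.adjoin R {w}) ?_ w
      (Algebra.subset_adjoin rfl)
    have hle : Subalgebra.toSubmodule (Algebra.adjoin R {w}) ≤
        Submodule.span R {(algebraMap R K c)⁻¹} := by
      rw [Algebra.adjoin_eq_span, Submodule.span_le]
      intro x hx
      obtain ⟨n, rfl⟩ := (Submonoid.mem_closure_singleton).mp hx
      obtain ⟨t, ht⟩ := h n
      rw [SetLike.mem_coe, Submodule.mem_span_singleton]
      refine ⟨t, ?_⟩
      have h2 := congrArg (algebraMap R K) ht
      rw [map_mul, map_mul, map_pow, map_pow] at h2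
      rw [Algebra.smul_def]
      change _ = (algebraMap R K y / algebraMap R K a) ^ n
      rw [div_pow, eq_div_iff (pow_ne_zero _ haK)]
      calc algebraMap R K t * (algebraMap R K c)⁻¹ * algebraMap R K a ^ n
          = (algebraMap R K c)⁻¹ * (algebraMap R K a ^ n * algebraMap R K t) := by ring
        _ = algebraMap R K y ^ n := by rw [← h2, ← mul_assoc, inv_mul_cancel₀ hcK, one_mul]
    have hfg : (Submodule.span R {(algebraMap R K c)⁻¹}).FG := Submodule.fg_span_singleton _
    exact Submodule.FG.of_le hfg hle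
  obtain ⟨z, hz⟩ := IsIntegrallyClosed.isIntegral_iff.mp hint
  refine ⟨z, ?_⟩
  apply IsFractionRing.injective R K
  rw [map_mul, hz]
  change _ = algebraMap R K a * (algebraMap R K y / algebraMap R K a)
  rw [mul_div_cancel₀ _ haK]

/-- Reflexivity of the Frobenius pushforward of a normal domain. -/
theorem dvd_of_forall_cartier {R : Type*} [CommRing R] [IsDomain R] [IsNoetherianRing R]
    [IsIntegrallyClosed R] {p : ℕ} {c : R} (hc : c ≠ 0) (h : FrobDual p c) {π y : R}
    (hπ : π ≠ 0) (hy : ∀ φ : R →+ R, IsCartier p φ → π ∣ φ y) : π ^ p ∣ y := by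
  have key : ∀ n : ℕ, ∀ φ : R →+ R, IsCartier p φ → π ^ n ∣ φ (y ^ n) := by
    intro n
    induction n with
    | zero => intro φ _; simp
    | succ n ih =>
      intro φ hφ
      have hd : ∀ r : R, π ^ n ∣ φ (r * y ^ n) := fun r => ih (preMul φ r) (hφ.preMul r)
      choose g hg using hd
      have hπn : π ^ n ≠ 0 := pow_ne_zero _ hπ
      let ψ : R →+ R :=
        { toFun := g
          map_zero' := by
            have h1 := hg 0
            rw [zero_mul, map_zero] at h1
            exact (mul_eq_zero.mp h1.symm).resolve_left hπn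
          map_add' := by
            intro r s
            have h1 := hg (r + s)
            rw [add_mul, map_add, hg r, hg s, ← mul_add] at h1
            exact (mul_left_cancel₀ hπn h1).symm }
      have hψ : IsCartier p ψ := by
        intro r s
        have h1 := hg (r ^ p * s)
        rw [mul_assoc, hφ, hg s] at h1
        refine mul_left_cancel₀ hπn ?_
        change π ^ n * g (r ^ p * s) = π ^ n * (r * g s)
        rw [← h1]
        ring
      obtain ⟨t, ht⟩ := hy ψ hψ
      refine ⟨t, ?_⟩
      have h1 := hg y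
      rw [pow_succ', h1]
      change π ^ n * ψ y = _
      rw [ht]
      ring
  refine dvd_of_almost hc (pow_ne_zero _ hπ) fun n => ?_
  obtain ⟨m, b, l, hl, hz⟩ := h
  rw [hz]
  refine Finset.dvd_sum fun j _ => Dvd.dvd.mul_right ?_ _
  rw [← pow_mul, mul_comm p n, pow_mul]
  exact pow_dvd_pow_of_dvd (key n (l j) (hl j)) p

/-- A height one prime of a Noetherian normal domain is generated by one element up to
multiplication by an element outside. -/
theorem exists_uniformizer {R : Type*} [CommRing R] [IsDomain R] [IsNoetherianRing R]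
    [IsIntegrallyClosed R] {P : Ideal R} [hP : P.IsPrime] (hPbot : P ≠ ⊥) (hht : P.height ≤ 1) :
    ∃ π ∈ P, π ≠ 0 ∧ ∃ s, s ∉ P ∧ ∀ y ∈ P, π ∣ s * y := by
  classical
  let Rp := Localization.AtPrime P
  have hdom : IsDomain Rp := IsLocalization.isDomain_localization P.primeCompl_le_nonZeroDivisors
  have hmax : IsLocalRing.maximalIdeal Rp = P.map (algebraMap R Rp) :=
    (Localization.AtPrime.map_eq_maximalIdeal).symm
  have hinj : Function.Injective (algebraMap R Rp) :=
    IsLocalization.injective Rp P.primeCompl_le_nonZeroDivisors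
  have hnoeth : IsNoetherianRing Rp := IsLocalization.isNoetherianRing P.primeCompl Rp inferInstance
  have hic : IsIntegrallyClosed Rp :=
    isIntegrallyClosed_of_isLocalization Rp P.primeCompl P.primeCompl_le_nonZeroDivisors
  have hdim : Ring.KrullDimLE 1 Rp := by
    rw [Ring.krullDimLE_iff, IsLocalization.AtPrime.ringKrullDim_eq_height P Rp]
    exact_mod_cast hht
  have hprin : (IsLocalRing.maximalIdeal Rp).IsPrincipal := by
    have h4 : IsIntegrallyClosed Rp ∧ ∀ Q : Ideal Rp, Q ≠ ⊥ → Q.IsPrime →
        Q = IsLocalRing.maximalIdeal Rp :=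
      ⟨hic, fun Q hQ hQp =>
        IsLocalRing.eq_maximalIdeal (Ideal.isMaximal_of_isPrime_of_ne_bot Q hQ)⟩
    exact ((tfae_of_isNoetherianRing_of_isLocalRing_of_isDomain Rp).out 3 4).mp h4
  obtain ⟨g, hg⟩ := hprin
  have hgm : g ∈ IsLocalRing.maximalIdeal Rp := by
    rw [hg]; exact Submodule.mem_span_singleton_self g
  obtain ⟨⟨π, s0⟩, hπs⟩ := IsLocalization.surj P.primeCompl g
  have hs0 : IsUnit (algebraMap R Rp s0) := IsLocalization.map_units Rp s0
  have hπP : π ∈ P := by
    have h1 : algebraMap R Rp π ∈ IsLocalRing.maximalIdeal Rp := by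
      rw [← hπs]
      exact Ideal.mul_mem_right _ _ hgm
    exact (IsLocalization.AtPrime.to_map_mem_maximal_iff Rp P π).mp h1
  have hdvd : ∀ y ∈ P, ∃ s, s ∉ P ∧ π ∣ s * y := by
    intro y hy
    have h1 : algebraMap R Rp y ∈ IsLocalRing.maximalIdeal Rp := by
      rw [hmax]
      exact Ideal.mem_map_of_mem _ hy
    rw [hg] at h1
    obtain ⟨r, hr⟩ := Submodule.mem_span_singleton.mp h1
    obtain ⟨⟨r1, s1⟩, hrs⟩ := IsLocalization.surj P.primeCompl r
    refine ⟨s1 * s0, ?_, r1, ?_⟩
    · exact (s1 * s0 : P.primeCompl).2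
    · apply hinj
      rw [map_mul, map_mul, map_mul, ← hr, ← hπs, ← hrs, smul_eq_mul]
      ring
  have hπ0 : π ≠ 0 := by
    intro h
    obtain ⟨y, hy, hy0⟩ := Submodule.exists_mem_ne_zero_of_ne_bot hPbot
    obtain ⟨s, hs, hd⟩ := hdvd y hy
    rw [h, zero_dvd_iff] at hd
    rcases mul_eq_zero.mp hd with h1 | h1
    · exact hs (by rw [h1]; exact Ideal.zero_mem _)
    · exact hy0 h1
  refine ⟨π, hπP, hπ0, ?_⟩
  obtain ⟨T, hT⟩ := (IsNoetherian.noetherian P : P.FG)
  have hTP : ∀ t ∈ T, t ∈ P := fun t ht => hT ▸ Ideal.subset_span ht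
  choose! f hf1 hf2 using hdvd
  refine ⟨∏ t ∈ T, f t, ?_, ?_⟩
  · rw [hP.prod_mem_iff]
    push Not
    intro t ht
    exact hf1 t (hTP t ht)
  · intro y hy
    rw [← hT] at hy
    refine Submodule.span_induction (p := fun y _ => π ∣ (∏ t ∈ T, f t) * y) ?_ ?_ ?_ ?_ hy
    · intro t ht
      rw [← Finset.prod_erase_mul _ _ ht, mul_assoc]
      exact Dvd.dvd.mul_left (hf2 t (hTP t ht)) _
    · simp
    · intro a b _ _ ha hb
      rw [mul_add]
      exact dvd_add ha hb
    · intro r a _ ha
      rw [smul_eq_mul, mul_left_comm]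
      exact Dvd.dvd.mul_left ha _

/-- A height one prime of a Noetherian normal F-finite domain is not compatible. -/
theorem not_compat_of_height_one {R : Type*} [CommRing R] [IsDomain R] [IsNoetherianRing R]
    [IsIntegrallyClosed R] {p : ℕ} (hp : 2 ≤ p) {c : R} (hc : c ≠ 0) (h : FrobDual p c)
    {P : Ideal R} [hP : P.IsPrime] (hPbot : P ≠ ⊥) (hht : P.height ≤ 1) : ¬ Compat p P := by
  intro hcomp
  obtain ⟨π, hπP, hπ0, s, hs, hsP⟩ := exists_uniformizer hPbot hht
  have h1 : π ^ p ∣ s ^ p * π := by
    refine dvd_of_forall_cartier hc h hπ0 fun φ hφ => ?_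
    rw [hφ]
    exact hsP _ (hcomp 1 φ (by simpa using hφ) π hπP)
  obtain ⟨t, ht⟩ := h1
  have h2 : s ^ p = π ^ (p - 1) * t := by
    refine mul_right_cancel₀ hπ0 ?_
    rw [ht]
    have : p - 1 + 1 = p := by omega
    calc π ^ p * t = π ^ (p - 1 + 1) * t := by rw [this]
      _ = π ^ (p - 1) * t * π := by ring
  have h3 : s ^ p ∈ P := by
    rw [h2]
    exact Ideal.mul_mem_right _ _ (Ideal.pow_mem_of_mem P hπP _ (by omega))
  exact hs (hP.mem_of_pow_mem p h3)

end Pool.Agent.SFR
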