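import Pool.Agent.Lib_helper22.SFR.SFR1

/-!
Minimal multiplicity: `m² ≤ J m` for every minimal reduction `J` when the threshold is large.
-/

namespace Pool.Agent.SFR

open IsLocalRing

theorem sq_le_red {T : Type*} [CommRing T] [IsLocalRing T] (p : ℕ) [hp : Fact p.Prime] {d : ℕ}
    (hF : ∀ C : ℕ, ∃ (e N : ℕ) (φ : T →+ T) (f : T), f ∈ maximalIdeal T ^ N ∧
      IsCartier (p ^ e) φ ∧ φ f = 1 ∧ d * p ^ e + C < N + 2 * p ^ e)
    {x : Fin d → T} (hx : CN.IsRed (maximalIdeal T) x) :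
    maximalIdeal T ^ 2 ≤ Ideal.span (Set.range x) := by
  obtain ⟨C, hC⟩ := bracket_of_red hx
  obtain ⟨e, N, φ, f, hfN, hφ, hf1, hN⟩ := hF C
  intro y hy
  have hq : 0 < p ^ e := pow_pos hp.out.pos e
  have h1 : y ^ p ^ e * f ∈ maximalIdeal T ^ (2 * p ^ e + N) := by
    rw [pow_add, pow_mul]
    exact Ideal.mul_mem_mul (Ideal.pow_mem_pow hy _) hfN
  have h2 := hC (p ^ e) hq (Ideal.pow_le_pow_right (by omega) h1)
  have h3 := CN.frob_linear_mem φ hφ x Set.univ (y ^ p ^ e * f) (by rwa [Set.image_univ])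
  rw [hφ, hf1, mul_one, Set.image_univ] at h3
  exact h3

theorem red_linInd {T : Type*} [CommRing T] [IsLocalRing T] [IsNoetherianRing T] {d : ℕ}
    (hd : ringKrullDim T = d) {x : Fin d → T} (hx : CN.IsRed (maximalIdeal T) x)
    (a : Fin d → T) (ha : ∑ i, a i * x i ∈ maximalIdeal T ^ 2) (j : Fin d) :
    a j ∈ maximalIdeal T := by
  classical
  rw [mem_maximalIdeal, mem_nonunits_iff]
  rintro ⟨u, hu⟩
  set m := maximalIdeal T with hm
  let F : Finset T := (Finset.univ.erase j).image x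
  let J' : Ideal T := Ideal.span (F : Set T)
  have hFm : ∀ i, i ≠ j → x i ∈ J' := by
    intro i hi
    refine Ideal.subset_span ?_
    simp only [F, Finset.coe_image]
    exact ⟨i, by simp [hi], rfl⟩
  have hJ'm : J' ≤ m := by
    rw [Ideal.span_le]
    intro y hy
    simp only [F, Finset.coe_image] at hy
    obtain ⟨i, -, rfl⟩ := hy
    exact hx.1 i
  have hxj : x j ∈ J' ⊔ m ^ 2 := by
    have h1 : x j = -(∑ i ∈ Finset.univ.erase j, ((u⁻¹ : Tˣ) : T) * a i * x i) +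
        ((u⁻¹ : Tˣ) : T) * ∑ i, a i * x i := by
      rw [← Finset.add_sum_erase _ _ (Finset.mem_univ j), mul_add, Finset.mul_sum, ← hu]
      have h2 : ((u⁻¹ : Tˣ) : T) * (↑u * x j) = x j := by
        rw [← mul_assoc, Units.inv_mul, one_mul]
      rw [h2]
      have h3 : ∑ i ∈ Finset.univ.erase j, ((u⁻¹ : Tˣ) : T) * a i * x i =
          ∑ i ∈ Finset.univ.erase j, ((u⁻¹ : Tˣ) : T) * (a i * x i) :=
        Finset.sum_congr rfl fun i _ => mul_assoc _ _ _
      rw [h3]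
      ring
    rw [h1]
    refine Submodule.add_mem_sup ((Ideal.neg_mem_iff _).mpr (Ideal.sum_mem _ fun i hi =>
      Ideal.mul_mem_left _ _ (hFm i (Finset.ne_of_mem_erase hi)))) (Ideal.mul_mem_left _ _ ha)
  have hJ : Ideal.span (Set.range x) ≤ J' ⊔ m ^ 2 := by
    rw [Ideal.span_le]
    rintro _ ⟨i, rfl⟩
    by_cases hij : i = j
    · rw [hij]; exact hxj
    · exact Submodule.mem_sup_left (hFm i hij)
  obtain ⟨hxm, n, hn⟩ := hx
  have h2 : m ^ (n + 1) ≤ J' * m ^ n ⊔ m • m ^ (n + 1) := by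
    calc m ^ (n + 1) ≤ (J' ⊔ m ^ 2) * m ^ n := hn.trans (Ideal.mul_mono_left hJ)
      _ = J' * m ^ n ⊔ m • m ^ (n + 1) := by
          rw [Ideal.sup_mul, smul_eq_mul]
          congr 1
          ring
  have h3 : m ^ (n + 1) ≤ J' * m ^ n :=
    Submodule.le_of_le_smul_of_le_jacobson_bot (IsNoetherian.noetherian _)
      (maximalIdeal_le_jacobson _) h2
  have h4 : m ^ (n + 1) ≤ J' := h3.trans Ideal.mul_le_left
  have hmin : m ∈ J'.minimalPrimes := by
    refine ⟨⟨inferInstance, hJ'm⟩, fun Q hQ _ => ?_⟩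
    have hQp : Q.IsPrime := hQ.1
    exact hQp.le_of_pow_le (h4.trans hQ.2)
  have h5 : m.height ≤ F.card := Ideal.height_le_card_of_mem_minimalPrimes_span_finset hmin
  have h6 : F.card ≤ d - 1 := by
    refine Finset.card_image_le.trans ?_
    rw [Finset.card_erase_of_mem (Finset.mem_univ j), Finset.card_univ, Fintype.card_fin]
  have h7 : ((m.height : ℕ∞) : WithBot ℕ∞) = d := by
    rw [← hd]
    exact maximalIdeal_height_eq_ringKrullDim
  have h8 : (d : WithBot ℕ∞) ≤ (F.card : ℕ) := by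
    rw [← h7]
    exact_mod_cast h5
  have h9 : d ≤ F.card := by exact_mod_cast h8
  have := j.2
  omega

/-- MINMULT. -/
theorem sq_le_mul {T : Type*} [CommRing T] [IsLocalRing T] [IsNoetherianRing T] (p : ℕ)
    [hp : Fact p.Prime] {d : ℕ} (hd : ringKrullDim T = d)
    (hF : ∀ C : ℕ, ∃ (e N : ℕ) (φ : T →+ T) (f : T), f ∈ maximalIdeal T ^ N ∧
      IsCartier (p ^ e) φ ∧ φ f = 1 ∧ d * p ^ e + C < N + 2 * p ^ e)
    {x : Fin d → T} (hx : CN.IsRed (maximalIdeal T) x) :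
    maximalIdeal T ^ 2 ≤ Ideal.span (Set.range x) * maximalIdeal T := by
  intro y hy
  have h1 := sq_le_red p hF hx hy
  obtain ⟨a, ha⟩ := (Ideal.mem_span_range_iff_exists_fun).mp h1
  rw [← ha]
  have h2 := red_linInd hd hx a (by rw [ha]; exact hy)
  refine Ideal.sum_mem _ fun i _ => ?_
  rw [mul_comm (a i) (x i)]
  exact Ideal.mul_mem_mul (Ideal.subset_span ⟨i, rfl⟩) (h2 i)

end Pool.Agent.SFR
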