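import Pool.Agent.Lib_helper22.SFR.DimBound

/-!
A normal F-finite local ring whose F-pure threshold exceeds `d - 2` is strongly F-regular.
-/

namespace Pool.Agent.SFR

open IsLocalRing

theorem height_add_dim_quotient_le {R : Type*} [CommRing R] [Nontrivial R] (P : Ideal R)
    [hP : P.IsPrime] : (P.height : WithBot ℕ∞) + ringKrullDim (R ⧸ P) ≤ ringKrullDim R := by
  let x : PrimeSpectrum R := ⟨P, hP⟩
  have h1 : (PrimeSpectrum.zeroLocus (P : Set R)) = Set.Ici x := by
    ext Q
    rw [PrimeSpectrum.mem_zeroLocus, Set.mem_Ici]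
    rfl
  have hne : Nonempty (PrimeSpectrum R) := ⟨x⟩
  rw [ringKrullDim_quotient, h1, ← Order.coheight_eq_krullDim_Ici, ringKrullDim,
    Order.krullDim_eq_iSup_height_add_coheight_of_nonempty]
  have h2 : P.height = Order.height x := PrimeSpectrum.height_eq_orderHeight x
  rw [h2, ← WithBot.coe_add, WithBot.coe_le_coe]
  exact le_iSup (fun a : PrimeSpectrum R => Order.height a + Order.coheight a) x

theorem exists_dim_eq (S : Type*) [CommRing S] [IsLocalRing S] [IsNoetherianRing S] :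
    ∃ δ : ℕ, ringKrullDim S = δ := by
  have h1 := ringKrullDim_le_spanFinrank_maximalIdeal S
  have h0 : (0 : WithBot ℕ∞) ≤ ringKrullDim S := ringKrullDim_nonneg_of_nontrivial
  generalize ringKrullDim S = x at h0 h1
  induction x using WithBot.recBotCoe with
  | bot => simp at h0
  | coe x =>
    induction x using ENat.recTopCoe with
    | top =>
      have h2 : ((⊤ : ℕ∞) : WithBot ℕ∞) ≤ (((maximalIdeal S).spanFinrank : ℕ∞) : WithBot ℕ∞) :=
        h1
      rw [WithBot.coe_le_coe] at h2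
      exact absurd h2 (by simp)
    | coe n => exact ⟨n, rfl⟩

section Quot

variable {R : Type*} [CommRing R] [IsLocalRing R] (I : Ideal R)

theorem isLocalRing_quotient (hI : I ≠ ⊤) : IsLocalRing (R ⧸ I) := by
  have : Nontrivial (R ⧸ I) := Ideal.Quotient.nontrivial_iff.mpr hI
  exact IsLocalRing.of_surjective' (Ideal.Quotient.mk I) Ideal.Quotient.mk_surjective

theorem maximalIdeal_quotient [IsLocalRing (R ⧸ I)] :
    maximalIdeal (R ⧸ I) = (maximalIdeal R).map (Ideal.Quotient.mk I) := by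
  have hI : I ≤ maximalIdeal R := le_maximalIdeal (Ideal.Quotient.nontrivial_iff.mp inferInstance)
  have h1 : ((maximalIdeal R).map (Ideal.Quotient.mk I)).IsMaximal := by
    refine Ideal.IsMaximal.map_of_surjective_of_ker_le Ideal.Quotient.mk_surjective ?_
    rwa [Ideal.mk_ker]
  exact (IsLocalRing.eq_maximalIdeal h1).symm

theorem infinite_residueField_quotient [IsLocalRing (R ⧸ I)] [Infinite (ResidueField R)] :
    Infinite (ResidueField (R ⧸ I)) := by
  let f : R →+* ResidueField (R ⧸ I) := (residue (R ⧸ I)).comp (Ideal.Quotient.mk I)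
  have hf : ∀ x ∈ maximalIdeal R, f x = 0 := by
    intro x hx
    change residue (R ⧸ I) (Ideal.Quotient.mk I x) = 0
    rw [residue_eq_zero_iff, maximalIdeal_quotient]
    exact Ideal.mem_map_of_mem _ hx
  let g : ResidueField R →+* ResidueField (R ⧸ I) := Ideal.Quotient.lift (maximalIdeal R) f hf
  exact Infinite.of_injective g g.injective

omit [IsLocalRing R] in
theorem charP_quotient (hI : I ≠ ⊤) (p : ℕ) [Fact p.Prime] [CharP R p] : CharP (R ⧸ I) p := by
  have : Nontrivial (R ⧸ I) := Ideal.Quotient.nontrivial_iff.mpr hI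
  refine (CharP.charP_iff_prime_eq_zero Fact.out).mpr ?_
  have : ((p : ℕ) : R) = 0 := CharP.cast_eq_zero R p
  rw [← map_natCast (Ideal.Quotient.mk I), this, map_zero]

end Quot

/-- A compatible ideal has a quotient of large dimension. -/
theorem dim_quotient_lt {R : Type*} [CommRing R] [IsLocalRing R] [IsNoetherianRing R]
    (p : ℕ) [Fact p.Prime] [CharP R p] [Infinite (ResidueField R)] {d : ℕ}
    (hF : ∀ C : ℕ, ∃ (e N : ℕ) (φ : R →+ R) (f : R), f ∈ maximalIdeal R ^ N ∧
      IsCartier (p ^ e) φ ∧ φ f = 1 ∧ d * p ^ e + C < N + 2 * p ^ e)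
    {P : Ideal R} (hP : P ≠ ⊤) (hcomp : Compat p P) {δ : ℕ} (hδ : ringKrullDim (R ⧸ P) = δ) :
    d < δ + 2 := by
  by_contra hcon
  push Not at hcon
  have := isLocalRing_quotient P hP
  have := infinite_residueField_quotient P
  have := charP_quotient P hP p
  obtain ⟨C, hC⟩ := dim_bound (R ⧸ P) p hδ
  obtain ⟨e, N, φ, f, hfN, hφ, hf1, hN⟩ := hF C
  have hq : 0 < p ^ e := pow_pos (Fact.out : p.Prime).pos e
  have h1 : δ * p ^ e + C ≤ N := by
    have : (δ + 2) * p ^ e ≤ d * p ^ e := Nat.mul_le_mul_right _ hcon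
    have h2 : (δ + 2) * p ^ e = δ * p ^ e + 2 * p ^ e := by ring
    omega
  have h2 : Ideal.Quotient.mk P f ∈ maximalIdeal (R ⧸ P) ^ N := by
    rw [maximalIdeal_quotient, ← Ideal.map_pow]
    exact Ideal.mem_map_of_mem _ hfN
  have h3 := hC e (Ideal.pow_le_pow_right h1 h2)
  rw [maximalIdeal_quotient] at h3
  have h4 := bracket_map_le (Ideal.Quotient.mk P) p e _ h3
  rw [Ideal.mem_quotient_iff_mem_sup] at h4
  obtain ⟨a, ha, b, hb, hab⟩ := Submodule.mem_sup.mp h4
  have h5 : φ a ∈ maximalIdeal R := by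
    have h6 := CN.frob_linear_mem φ hφ (fun x : R => x) (maximalIdeal R : Set R) a ha
    simpa using h6
  have h6 : φ b ∈ maximalIdeal R := le_maximalIdeal hP (hcomp e φ hφ b hb)
  have h7 : (1 : R) ∈ maximalIdeal R := by
    rw [← hf1, ← hab, map_add]
    exact Ideal.add_mem _ h5 h6
  exact (maximalIdeal.isMaximal R).ne_top ((Ideal.eq_top_iff_one _).mpr h7)

theorem isFPureRing_of_hF {R : Type*} [CommRing R] [IsLocalRing R]
    (p : ℕ) {d : ℕ}
    (hF : ∀ C : ℕ, ∃ (e N : ℕ) (φ : R →+ R) (f : R), f ∈ maximalIdeal R ^ N ∧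
      IsCartier (p ^ e) φ ∧ φ f = 1 ∧ d * p ^ e + C < N + 2 * p ^ e) : IsFPureRing p R := by
  obtain ⟨e, N, φ, f, hfN, hφ, hf1, hN⟩ := hF 2
  rcases Nat.eq_zero_or_pos e with he | he
  · exfalso
    subst he
    have hN0 : N ≠ 0 := by
      rintro rfl
      rw [pow_zero] at hN
      omega
    have h1 := hφ f 1
    rw [pow_zero, pow_one, mul_one, hf1] at h1
    have h2 : f ∈ maximalIdeal R := Ideal.pow_le_self hN0 hfN
    have h3 : (1 : R) ∈ maximalIdeal R := by
      rw [h1]
      exact Ideal.mul_mem_right _ _ h2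
    exact (maximalIdeal.isMaximal R).ne_top ((Ideal.eq_top_iff_one _).mpr h3)
  · exact isFPureRing_of_apply he hφ hf1

/-- SFR1. -/
theorem isSFR_of_fpt {R : Type*} [CommRing R] [IsDomain R] [IsLocalRing R] [IsNoetherianRing R]
    [IsIntegrallyClosed R] (p : ℕ) [hp : Fact p.Prime] [CharP R p] [Infinite (ResidueField R)]
    (hfin : (frobenius R p).Finite) {d : ℕ} (hd : ringKrullDim R = d)
    (hF : ∀ C : ℕ, ∃ (e N : ℕ) (φ : R →+ R) (f : R), f ∈ maximalIdeal R ^ N ∧
      IsCartier (p ^ e) φ ∧ φ f = 1 ∧ d * p ^ e + C < N + 2 * p ^ e) : IsSFR p R := by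
  have hFP := isFPureRing_of_hF p hF
  obtain ⟨c, hc, hdual⟩ := exists_frobDual R p hfin
  refine isSFR_of_compat p fun I hI hItop => ?_
  by_contra hIbot
  have hp2 : 2 ≤ p := hp.out.two_le
  obtain ⟨P, hP⟩ : (I.minimalPrimes).Nonempty :=
    Set.nonempty_coe_sort.mp (Ideal.nonempty_minimalPrimes hItop)
  have hPp : P.IsPrime := hP.1.1
  have hPc : Compat p P := hI.minimalPrimes (by omega) (hI.isRadical (by omega) hFP) hP
  have hPbot : P ≠ ⊥ := by
    rintro rfl
    exact hIbot (le_bot_iff.mp hP.1.2)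
  have := isLocalRing_quotient P hPp.ne_top
  obtain ⟨δ, hδ⟩ := exists_dim_eq (R ⧸ P)
  have h1 := dim_quotient_lt p hF hPp.ne_top hPc hδ
  have h2 := height_add_dim_quotient_le P
  rw [hδ, hd] at h2
  refine not_compat_of_height_one hp2 hc hdual hPbot ?_ hPc
  by_contra hht
  push Not at hht
  have h3 : ((2 : ℕ) : ℕ∞) ≤ P.height := by
    have := Order.add_one_le_of_lt hht
    exact_mod_cast this
  have h4 : ((2 + δ : ℕ) : WithBot ℕ∞) ≤ (d : ℕ) := by
    refine le_trans ?_ h2
    push_cast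
    gcongr
    exact WithBot.coe_le_coe.mpr h3
  have h5 : 2 + δ ≤ d := by exact_mod_cast h4
  omega

end Pool.Agent.SFR
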